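import Pool.Agent.Q289.Bkr.Defs

/-!
# BKR products and bracketings: the construction
-/

set_option autoImplicit false

namespace Q289.Bkr

theorem size_pos (T : Br) : 0 < T.size := by
  induction T with
  | leaf => exact Nat.one_pos
  | node l r ih _ => exact Nat.lt_of_lt_of_le ih (Nat.le_add_right _ _)

theorem finite_size (n : ℕ) : {T : Br | T.size ≤ n}.Finite := by
  induction n with
  | zero =>
    refine Set.Finite.subset Set.finite_empty ?_
    intro T hT
    have := size_pos T
    have hT' : T.size ≤ 0 := hT
    omega
  | succ n ih =>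
    refine Set.Finite.subset ((Set.finite_singleton Br.leaf).union
      (Set.Finite.image2 Br.node ih ih)) ?_
    intro T hT
    cases T with
    | leaf => left; rfl
    | node l r =>
      right
      have h1 := size_pos l
      have h2 := size_pos r
      have h3 : l.size + r.size ≤ n + 1 := hT
      exact ⟨l, by show l.size ≤ n; omega, r, by show r.size ≤ n; omega, rfl⟩

/-- trees with `r` leaves -/
abbrev Tr (r : ℕ) : Type := {T : Br // T.size = r}

instance instFiniteTr (r : ℕ) : Finite (Tr r) := by
  have : {T : Br | T.size = r}.Finite := (finite_size r).subset fun T hT => le_of_eq hT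
  exact this.to_subtype

theorem bkr_mono {ι S : Type} {A A' B B' : Set (ι → S)} (hA : A ⊆ A') (hB : B ⊆ B') :
    bkr A B ⊆ bkr A' B' := by
  rintro x ⟨K, L, hd, hK, hL⟩
  exact ⟨K, L, hd, hK.trans hA, hL.trans hB⟩

theorem bkr_comm {ι S : Type} (A B : Set (ι → S)) : bkr A B = bkr B A := by
  ext x
  constructor
  · rintro ⟨K, L, hd, hK, hL⟩
    exact ⟨L, K, hd.symm, hL, hK⟩
  · rintro ⟨K, L, hd, hK, hL⟩
    exact ⟨L, K, hd.symm, hL, hK⟩

theorem pow_swap {ι S : Type} (A : Set (ι → S)) (T T' : Br) (h : Swap T T') :
    T.pow A = T'.pow A := by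
  induction h with
  | leaf => rfl
  | keep l r l' r' _ _ ih1 ih2 => simp only [Br.pow]; rw [ih1, ih2]
  | swap l r l' r' _ _ ih1 ih2 => simp only [Br.pow]; rw [ih1, ih2, bkr_comm]

theorem val_subset_pow {ι S : Type} (A : ℕ → Set (ι → S)) (B : Set (ι → S))
    (h : ∀ i, A i ⊆ B) (T : Br) : ∀ s, T.val A s ⊆ T.pow B := by
  induction T with
  | leaf => exact h
  | node l r ihl ihr => exact fun s => bkr_mono (ihl s) (ihr _)

/-! ### separated triples -/

/-- some node of `T` (whose leaves are numbered from `s` on) has `i` and `j` on one side and `k` on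
the other one -/
def Sep : Br → ℕ → ℕ → ℕ → ℕ → Prop
  | .leaf, _, _, _, _ => False
  | .node l r, s, i, j, k =>
    (i ≠ j ∧ ((s ≤ i ∧ i < s + l.size ∧ s ≤ j ∧ j < s + l.size ∧ s + l.size ≤ k ∧
        k < s + (l.size + r.size)) ∨
      (s + l.size ≤ i ∧ i < s + (l.size + r.size) ∧ s + l.size ≤ j ∧ j < s + (l.size + r.size) ∧
        s ≤ k ∧ k < s + l.size))) ∨ Sep l s i j k ∨ Sep r (s + l.size) i j k

theorem Sep.bounds (T : Br) : ∀ s i j k, Sep T s i j k →
    s ≤ i ∧ i < s + T.size ∧ s ≤ j ∧ j < s + T.size ∧ s ≤ k ∧ k < s + T.size ∧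
    i ≠ j ∧ i ≠ k ∧ j ≠ k := by
  induction T with
  | leaf => intro s i j k h; exact h.elim
  | node l r ihl ihr =>
    intro s i j k h
    simp only [Br.size]
    rcases h with ⟨h1, h2 | h2⟩ | h | h
    · omega
    · omega
    · have := ihl _ _ _ _ h
      omega
    · have := ihr _ _ _ _ h
      omega

/-! ### the gadget -/

/-- the sets of the gadget: for the factors `a`, `b`, `c` and their products; for all three factors
no condition -/
def gU (a b c u v w : Bool) : Bool :=
  (!a && !b && !c) || (a && !b && !c && ((!u && !w) || (!v && w))) ||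
  (!a && b && !c && (!u || !v)) || (!a && !b && c && !w) ||
  (a && b && !c && (!u && !v)) || (a && !b && c && (!u && !v && !w)) ||
  (!a && b && c && (!w && (!u || !v))) || (a && b && c)

/-- variant for lower bounds -/
def gL (a b c u v w : Bool) : Bool :=
  (!a && !b && !c) || (a && !b && !c && ((!u && !w) || (!v && w))) ||
  (!a && b && !c && (!u || !v)) || (!a && !b && c && !w) ||
  (a && b && !c && (!u && !v)) || (a && b && c && (!u && !v && !w))

set_option synthInstance.maxSize 2000 in
set_option maxRecDepth 100000 in
theorem F1 : ∀ a b c a' b' c' : Bool, (a && a') = false → (b && b') = false →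
    (c && c') = false → (((a || a') && (b || b') && (c || c')) = true → a = b) →
    ∀ u v w : Bool, gL (a || a') (b || b') (c || c') u v w = true →
    ∃ p q t : Bool, (∀ u' v' w' : Bool, (p = true → u' = u) → (q = true → v' = v) →
        (t = true → w' = w) → gL a b c u' v' w' = true) ∧
      (∀ u' v' w' : Bool, (p = false → u' = u) → (q = false → v' = v) →
        (t = false → w' = w) → gL a' b' c' u' v' w' = true) := by
  decide

set_option synthInstance.maxSize 2000 in
set_option maxRecDepth 100000 in
theorem F2 : ∀ a b c a' b' c' : Bool, (a && a') = false → (b && b') = false →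
    (c && c') = false → ∀ u v w p q t : Bool,
    (∀ u' v' w' : Bool, (p = true → u' = u) → (q = true → v' = v) →
        (t = true → w' = w) → gU a b c u' v' w' = true) →
    (∀ u' v' w' : Bool, (p = false → u' = u) → (q = false → v' = v) →
        (t = false → w' = w) → gU a' b' c' u' v' w' = true) →
    gU (a || a') (b || b') (c || c') u v w = true := by
  decide

/-- the point `0` is not in the product of the factors `a`, `c` and of the factor `b`, nor in the
product of the factors `b`, `c` and of the factor `a` -/
theorem F3 : ∀ a a' : Bool, (a && a') = false → (a || a') = true → ∀ p q t : Bool,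
    (∀ u' v' w' : Bool, (p = true → u' = false) → (q = true → v' = false) →
        (t = true → w' = false) → gU a a' true u' v' w' = true) →
    (∀ u' v' w' : Bool, (p = false → u' = false) → (q = false → v' = false) →
        (t = false → w' = false) → gU a' a false u' v' w' = true) →
    False := by
  decide

end Q289.Bkr
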