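import Mathlib

/-!
# BKR products and bracketings
-/

set_option autoImplicit false

namespace Q289.Bkr

/-- the cylinder `[x]_K` -/
def cyl {ι S : Type} (x : ι → S) (K : Set ι) : Set (ι → S) := {y | ∀ i ∈ K, y i = x i}

/-- the binary BKR product -/
def bkr {ι S : Type} (A B : Set (ι → S)) : Set (ι → S) :=
  {x | ∃ K L : Set ι, Disjoint K L ∧ cyl x K ⊆ A ∧ cyl x L ⊆ B}

/-- bracketings of a word (full binary trees) -/
inductive Br : Type
  | leaf : Br
  | node : Br → Br → Br

/-- number of factors (leaves) -/
def Br.size : Br → ℕ
  | .leaf => 1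
  | .node l r => l.size + r.size

/-- the product of `A s, A (s + 1), ..., A (s + T.size - 1)`, in this order, bracketed as `T` -/
def Br.val {ι S : Type} (A : ℕ → Set (ι → S)) : Br → ℕ → Set (ι → S)
  | .leaf, s => A s
  | .node l r, s => bkr (l.val A s) (r.val A (s + l.size))

/-- the value of the bracketing `T` when all the factors are equal to `A` -/
def Br.pow {ι S : Type} (A : Set (ι → S)) : Br → Set (ι → S)
  | .leaf => A
  | .node l r => bkr (l.pow A) (r.pow A)

/-- `T'` is obtained from `T` by swapping the two subtrees at some internal nodes -/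
inductive Swap : Br → Br → Prop
  | leaf : Swap .leaf .leaf
  | keep (l r l' r' : Br) : Swap l l' → Swap r r' → Swap (.node l r) (.node l' r')
  | swap (l r l' r' : Br) : Swap l l' → Swap r r' → Swap (.node l r) (.node r' l')

end Q289.Bkr
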