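import Pool.Agent.Q289.Bkr.Upper

/-!
# BKR products and bracketings: lower bound and conclusion
-/

set_option autoImplicit false

namespace Q289.Bkr

open Finset

variable {r : ℕ}

theorem gL_gU : ∀ a b c u v w : Bool, (a && b) = false → (a && c) = false → (b && c) = false →
    gL a b c u v w = true → gU a b c u v w = true := by decide

/-- labelled lower bound -/
theorem lb (T1 : Br) : ∀ (s : ℕ) (T0 : Tr r) (z : Idx r → Bool), s + T1.size ≤ r →
    (∀ i : Fin r, s ≤ (i : ℕ) → (i : ℕ) < s + T1.size → z (tc T0 i) = true) →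
    (∀ i j k : Fin r, Sep T0.1 0 i j k →
      gL (decide (s ≤ (i : ℕ) ∧ (i : ℕ) < s + T1.size))
        (decide (s ≤ (j : ℕ) ∧ (j : ℕ) < s + T1.size))
        (decide (s ≤ (k : ℕ) ∧ (k : ℕ) < s + T1.size))
        (z (bc T0 i j k 0)) (z (bc T0 i j k 1)) (z (bc T0 i j k 2)) = true) →
    (∀ i j k : Fin r, Sep T0.1 0 i j k → s ≤ (i : ℕ) → (i : ℕ) < s + T1.size → s ≤ (j : ℕ) →
        (j : ℕ) < s + T1.size → s ≤ (k : ℕ) → (k : ℕ) < s + T1.size → Sep T1 s i j k) →
    z ∈ T1.val (fac r) s := by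
  induction T1 with
  | leaf =>
    intro s T0 z hs htag hb _
    have hs' : s < r := hs
    refine ⟨T0, ⟨s, hs'⟩, rfl, htag _ le_rfl (Nat.lt_succ_self s), fun i j k h => ?_⟩
    have e : ∀ n : ℕ, decide (s ≤ n ∧ n < s + Br.leaf.size) = decide (n = s) := by
      intro n
      congr 1
      simp only [Br.size, eq_iff_iff]
      omega
    have h1 := hb i j k h
    rw [e, e, e] at h1
    have h2 := Sep.bounds _ _ _ _ _ h
    refine gL_gU _ _ _ _ _ _ ?_ ?_ ?_ h1
    · rw [← Bool.decide_and, decide_eq_false_iff_not]; omega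
    · rw [← Bool.decide_and, decide_eq_false_iff_not]; omega
    · rw [← Bool.decide_and, decide_eq_false_iff_not]; omega
  | node l r' ihl ihr =>
    intro s T0 z hs htag hb hsep
    classical
    have hl := size_pos l
    have hr' := size_pos r'
    have hs' : s + (l.size + r'.size) ≤ r := hs
    have e : ∀ n : ℕ, decide (s ≤ n ∧ n < s + (Br.node l r').size) =
        (decide (s ≤ n ∧ n < s + l.size) ||
          decide (s + l.size ≤ n ∧ n < s + l.size + r'.size)) := by
      intro n
      rw [← Bool.decide_or]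
      congr 1
      simp only [Br.size, eq_iff_iff]
      omega
    have hex : ∀ i j k : Fin r, ∃ p q t : Bool, Sep T0.1 0 i j k →
        (∀ u v w : Bool, (p = true → u = z (bc T0 i j k 0)) →
          (q = true → v = z (bc T0 i j k 1)) → (t = true → w = z (bc T0 i j k 2)) →
          gL (decide (s ≤ (i : ℕ) ∧ (i : ℕ) < s + l.size))
            (decide (s ≤ (j : ℕ) ∧ (j : ℕ) < s + l.size))
            (decide (s ≤ (k : ℕ) ∧ (k : ℕ) < s + l.size)) u v w = true) ∧
        (∀ u v w : Bool, (p = false → u = z (bc T0 i j k 0)) →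
          (q = false → v = z (bc T0 i j k 1)) → (t = false → w = z (bc T0 i j k 2)) →
          gL (decide (s + l.size ≤ (i : ℕ) ∧ (i : ℕ) < s + l.size + r'.size))
            (decide (s + l.size ≤ (j : ℕ) ∧ (j : ℕ) < s + l.size + r'.size))
            (decide (s + l.size ≤ (k : ℕ) ∧ (k : ℕ) < s + l.size + r'.size)) u v w = true) := by
      intro i j k
      by_cases hs : Sep T0.1 0 i j k
      · have h1 := hb i j k hs
        rw [e, e, e] at h1
        obtain ⟨p, q, t, h2, h3⟩ := F1 _ _ _ _ _ _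
          (by rw [← Bool.decide_and, decide_eq_false_iff_not]; omega)
          (by rw [← Bool.decide_and, decide_eq_false_iff_not]; omega)
          (by rw [← Bool.decide_and, decide_eq_false_iff_not]; omega)
          (by
            intro hall
            rw [← e, ← e, ← e] at hall
            simp only [Bool.and_eq_true, decide_eq_true_eq] at hall
            obtain ⟨⟨hi, hj⟩, hk⟩ := hall
            have h4 := hsep i j k hs hi.1 hi.2 hj.1 hj.2 hk.1 hk.2
            simp only [Br.size] at hi hj hk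
            congr 1
            simp only [eq_iff_iff]
            rcases h4 with ⟨h5, h6⟩ | h4 | h4
            · omega
            · have := Sep.bounds _ _ _ _ _ h4
              omega
            · have := Sep.bounds _ _ _ _ _ h4
              omega) _ _ _ h1
        exact ⟨p, q, t, fun _ => ⟨h2, h3⟩⟩
      · exact ⟨true, true, true, fun h => absurd h hs⟩
    choose p q t hpqt using hex
    refine ⟨{x | (∃ i : Fin r, (i : ℕ) < s + l.size ∧ x = tc T0 i) ∨
        (∃ i j k : Fin r, (p i j k = true ∧ x = bc T0 i j k 0) ∨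
          (q i j k = true ∧ x = bc T0 i j k 1) ∨ (t i j k = true ∧ x = bc T0 i j k 2))},
      {x | (∃ i : Fin r, s + l.size ≤ (i : ℕ) ∧ x = tc T0 i) ∨
        (∃ i j k : Fin r, (p i j k = false ∧ x = bc T0 i j k 0) ∨
          (q i j k = false ∧ x = bc T0 i j k 1) ∨ (t i j k = false ∧ x = bc T0 i j k 2))},
      ?_, ?_, ?_⟩
    · rw [Set.disjoint_left]
      rintro x (⟨i, hi, rfl⟩ | ⟨i, j, k, ⟨h1, rfl⟩ | ⟨h1, rfl⟩ | ⟨h1, rfl⟩⟩)
        (⟨i', hi', h2⟩ | ⟨i', j', k', ⟨h3, h2⟩ | ⟨h3, h2⟩ | ⟨h3, h2⟩⟩) <;>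
        simp only [Prod.mk.injEq, Sum.inr.injEq, Sum.inl.injEq, true_and, reduceCtorEq, and_false,
          Fin.isValue] at h2
      · subst h2; omega
      · obtain ⟨⟨rfl, rfl, rfl⟩, _⟩ := h2
        rw [h1] at h3; cases h3
      · simp at h2
      · simp at h2
      · simp at h2
      · obtain ⟨⟨rfl, rfl, rfl⟩, _⟩ := h2
        rw [h1] at h3; cases h3
      · simp at h2
      · simp at h2
      · simp at h2
      · obtain ⟨⟨rfl, rfl, rfl⟩, _⟩ := h2
        rw [h1] at h3; cases h3
    · intro y hy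
      refine ihl s T0 y (by omega) ?_ ?_ ?_
      · intro i h1 h2
        rw [hy (tc T0 i) (Or.inl ⟨i, h2, rfl⟩)]
        exact htag i h1 (by simp only [Br.size]; omega)
      · intro i j k hs
        exact (hpqt i j k hs).1 _ _ _
          (fun h => hy _ (Or.inr ⟨i, j, k, Or.inl ⟨h, rfl⟩⟩))
          (fun h => hy _ (Or.inr ⟨i, j, k, Or.inr (Or.inl ⟨h, rfl⟩)⟩))
          (fun h => hy _ (Or.inr ⟨i, j, k, Or.inr (Or.inr ⟨h, rfl⟩)⟩))
      · intro i j k hs h1 h2 h3 h4 h5 h6
        have h7 := hsep i j k hs h1 (by simp only [Br.size]; omega) h3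
          (by simp only [Br.size]; omega) h5 (by simp only [Br.size]; omega)
        rcases h7 with ⟨h8, h9⟩ | h7 | h7
        · omega
        · exact h7
        · have := Sep.bounds _ _ _ _ _ h7
          omega
    · intro y hy
      refine ihr (s + l.size) T0 y (by omega) ?_ ?_ ?_
      · intro i h1 h2
        rw [hy (tc T0 i) (Or.inl ⟨i, h1, rfl⟩)]
        exact htag i (by omega) (by simp only [Br.size]; omega)
      · intro i j k hs
        exact (hpqt i j k hs).2 _ _ _
          (fun h => hy _ (Or.inr ⟨i, j, k, Or.inl ⟨h, rfl⟩⟩))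
          (fun h => hy _ (Or.inr ⟨i, j, k, Or.inr (Or.inl ⟨h, rfl⟩)⟩))
          (fun h => hy _ (Or.inr ⟨i, j, k, Or.inr (Or.inr ⟨h, rfl⟩)⟩))
      · intro i j k hs h1 h2 h3 h4 h5 h6
        have h7 := hsep i j k hs (by omega) (by simp only [Br.size]; omega) (by omega)
          (by simp only [Br.size]; omega) (by omega) (by simp only [Br.size]; omega)
        rcases h7 with ⟨h8, h9⟩ | h7 | h7
        · omega
        · have := Sep.bounds _ _ _ _ _ h7
          omega
        · exact h7

open scoped Classical in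
/-- the special point of a tree: its tags are on, everything else is off -/
noncomputable def pt (T0 : Tr r) : Idx r → Bool :=
  fun x => match x.2 with | Sum.inl _ => false | Sum.inr _ => decide (x.1 = T0)

theorem pt_block (T0 T' : Tr r) (i j k : Fin r) (c : Fin 3) : pt T0 (bc T' i j k c) = false := rfl

theorem pt_tag (T0 : Tr r) (i : Fin r) : pt T0 (tc T0 i) = true := by simp [pt]

theorem pt_off (T0 : Tr r) : Off T0 (pt T0) := by
  intro T' hT' i
  simp [pt, hT']

theorem tags_pt (T0 : Tr r) : tags T0 (pt T0) = univ := by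
  ext i
  simp [mem_tags, pt_tag]

theorem pt_mem (T0 : Tr r) : pt T0 ∈ T0.1.val (fac r) 0 := by
  have hT0 : T0.1.size = r := T0.2
  refine lb T0.1 0 T0 _ (by omega) (fun i _ _ => pt_tag T0 i) ?_ (fun i j k h _ _ _ _ _ _ => h)
  intro i j k h
  have hi := i.2
  have hj := j.2
  have hk := k.2
  rw [pt_block, pt_block, pt_block,
    show decide (0 ≤ (i : ℕ) ∧ (i : ℕ) < 0 + T0.1.size) = true by
      rw [decide_eq_true_iff]; omega,
    show decide (0 ≤ (j : ℕ) ∧ (j : ℕ) < 0 + T0.1.size) = true by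
      rw [decide_eq_true_iff]; omega,
    show decide (0 ≤ (k : ℕ) ∧ (k : ℕ) < 0 + T0.1.size) = true by
      rw [decide_eq_true_iff]; omega]
  rfl

/-- labelled: the point of `T0` lies in no other bracketed product -/
theorem val_only (T0 : Tr r) (T : Br) (hT : T.size = r) (h : pt T0 ∈ T.val (fac r) 0) :
    T = T0.1 :=
  ubl2 T 0 T0 _ h (pt_off T0) T0.1 (T0.2.trans hT.symm) (fun _ _ _ h => h)
    (fun _ _ _ _ _ _ _ _ _ _ _ => rfl)

/-- one set: the point of `T0` lies in no power with an inequivalent bracketing -/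
theorem pow_only (T0 : Tr r) (T : Br) (hT : T.size = r) (h : pt T0 ∈ T.pow (facs r)) :
    Swap T0.1 T := by
  have hT0 : T0.1.size = r := T0.2
  refine ub2 T T0 _ h (pt_off T0) ?_ T0.1 0 (by omega) ?_ (fun _ _ _ h => h)
    (fun _ _ _ _ _ _ _ _ => rfl)
  · rw [tags_pt, Finset.card_univ, Fintype.card_fin, hT]
  · intro i
    rw [tags_pt]
    have := i.2
    simp only [Finset.mem_univ, true_iff]
    omega

/-! ### transfer to `Fin d` -/

/-- pull a set back along an equivalence of the coordinates -/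
def tr {ι κ : Type} (e : ι ≃ κ) (A : Set (ι → Bool)) : Set (κ → Bool) := {y | (fun i => y (e i)) ∈ A}

theorem tr_bkr {ι κ : Type} (e : ι ≃ κ) (A B : Set (ι → Bool)) :
    bkr (tr e A) (tr e B) = tr e (bkr A B) := by
  ext y
  constructor
  · rintro ⟨K, L, hd, hK, hL⟩
    refine ⟨e ⁻¹' K, e ⁻¹' L, hd.preimage e, ?_, ?_⟩
    · intro x hx
      have : (fun k => x (e.symm k)) ∈ cyl y K := by
        intro k hk
        have := hx (e.symm k) (by simpa using hk)
        simpa using this
      have h2 := hK this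
      simpa [tr] using h2
    · intro x hx
      have : (fun k => x (e.symm k)) ∈ cyl y L := by
        intro k hk
        have := hx (e.symm k) (by simpa using hk)
        simpa using this
      have h2 := hL this
      simpa [tr] using h2
  · rintro ⟨K, L, hd, hK, hL⟩
    refine ⟨e '' K, e '' L, (Set.disjoint_image_iff e.injective).2 hd, ?_, ?_⟩
    · intro x hx
      refine hK ?_
      intro i hi
      exact hx (e i) ⟨i, hi, rfl⟩
    · intro x hx
      refine hL ?_
      intro i hi
      exact hx (e i) ⟨i, hi, rfl⟩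

theorem tr_val {ι κ : Type} (e : ι ≃ κ) (A : ℕ → Set (ι → Bool)) (T : Br) :
    ∀ s, T.val (fun i => tr e (A i)) s = tr e (T.val A s) := by
  induction T with
  | leaf => exact fun s => rfl
  | node l r' ihl ihr =>
    intro s
    simp only [Br.val]
    rw [ihl, ihr, tr_bkr]

theorem tr_pow {ι κ : Type} (e : ι ≃ κ) (A : Set (ι → Bool)) (T : Br) :
    T.pow (tr e A) = tr e (T.pow A) := by
  induction T with
  | leaf => rfl
  | node l r' ihl ihr =>
    simp only [Br.pow]
    rw [ihl, ihr, tr_bkr]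

theorem tr_inj {ι κ : Type} (e : ι ≃ κ) {A B : Set (ι → Bool)} (h : tr e A = tr e B) : A = B := by
  ext x
  have : (fun k => x (e.symm k)) ∈ tr e A ↔ (fun k => x (e.symm k)) ∈ tr e B := by rw [h]
  simpa [tr] using this

theorem exists_tree (r : ℕ) (hr : 1 ≤ r) : ∃ T : Br, T.size = r := by
  induction r, hr using Nat.le_induction with
  | base => exact ⟨.leaf, rfl⟩
  | succ n _ ih =>
    obtain ⟨T, hT⟩ := ih
    exact ⟨.node T .leaf, by simp only [Br.size]; omega⟩

theorem exists_equiv (r : ℕ) (hr : 1 ≤ r) : ∃ d : ℕ, 1 ≤ d ∧ Nonempty (Idx r ≃ Fin d) := by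
  classical
  have : Fintype (Idx r) := Fintype.ofFinite _
  obtain ⟨T, hT⟩ := exists_tree r hr
  have : Nonempty (Idx r) := ⟨tc ⟨T, hT⟩ ⟨0, hr⟩⟩
  exact ⟨Fintype.card (Idx r), Fintype.card_pos, ⟨Fintype.equivFin _⟩⟩

theorem main_val (r : ℕ) (hr : 1 ≤ r) : ∃ (d : ℕ) (A : ℕ → Set (Fin d → Bool)), 1 ≤ d ∧
    ∀ T T' : Br, T.size = r → T'.size = r → T.val A 0 = T'.val A 0 → T = T' := by
  obtain ⟨d, hd, ⟨e⟩⟩ := exists_equiv r hr
  refine ⟨d, fun i => tr e (fac r i), hd, fun T T' hT hT' h => ?_⟩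
  rw [tr_val, tr_val] at h
  have h2 := tr_inj e h
  have h3 := pt_mem (⟨T, hT⟩ : Tr r)
  rw [show (⟨T, hT⟩ : Tr r).1 = T from rfl, h2] at h3
  exact (val_only ⟨T, hT⟩ T' hT' h3).symm

theorem main_pow (r : ℕ) (hr : 1 ≤ r) : ∃ (d : ℕ) (A : Set (Fin d → Bool)), 1 ≤ d ∧
    ∀ T T' : Br, T.size = r → T'.size = r → (T.pow A = T'.pow A ↔ Swap T T') := by
  obtain ⟨d, hd, ⟨e⟩⟩ := exists_equiv r hr
  refine ⟨d, tr e (facs r), hd, fun T T' hT hT' => ⟨fun h => ?_, fun h => pow_swap _ _ _ h⟩⟩
  rw [tr_pow, tr_pow] at h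
  have h2 := tr_inj e h
  have h3 := val_subset_pow (fac r) (facs r) (fun i _ hz => ⟨i, hz⟩) T 0
    (pt_mem (⟨T, hT⟩ : Tr r))
  rw [h2] at h3
  exact pow_only ⟨T, hT⟩ T' hT' h3

end Q289.Bkr
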