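import Pool.Agent.Q289.Bkr.Basic

/-!
# BKR products and bracketings: bounds
-/

set_option autoImplicit false

namespace Q289.Bkr

open Finset

/-- coordinates: for every tree three coordinates for each triple of labels, and one tag for each
label -/
abbrev Idx (r : ℕ) : Type := Tr r × (((Fin r × Fin r × Fin r) × Fin 3) ⊕ Fin r)

/-- block coordinate -/
abbrev bc {r : ℕ} (T0 : Tr r) (i j k : Fin r) (c : Fin 3) : Idx r := (T0, Sum.inl ((i, j, k), c))

/-- tag coordinate -/
abbrev tc {r : ℕ} (T0 : Tr r) (i : Fin r) : Idx r := (T0, Sum.inr i)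

/-- the factors -/
def fac (r : ℕ) (l : ℕ) : Set (Idx r → Bool) :=
  {z | ∃ T0 : Tr r, ∃ i0 : Fin r, (i0 : ℕ) = l ∧ z (tc T0 i0) = true ∧
    ∀ i j k : Fin r, Sep T0.1 0 i j k →
      gU (decide ((i : ℕ) = l)) (decide ((j : ℕ) = l)) (decide ((k : ℕ) = l))
        (z (bc T0 i j k 0)) (z (bc T0 i j k 1)) (z (bc T0 i j k 2)) = true}

/-- their union -/
def facs (r : ℕ) : Set (Idx r → Bool) := {z | ∃ l, z ∈ fac r l}

/-- the tags of all trees but `T0` vanish -/
def Off {r : ℕ} (T0 : Tr r) (z : Idx r → Bool) : Prop :=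
  ∀ T' : Tr r, T' ≠ T0 → ∀ i, z (tc T' i) = false

open scoped Classical in
/-- change one block -/
noncomputable def upd {r : ℕ} (z : Idx r → Bool) (T0 : Tr r) (i j k : Fin r) (u v w : Bool) : Idx r → Bool :=
  fun x => if x = bc T0 i j k 0 then u else if x = bc T0 i j k 1 then v
    else if x = bc T0 i j k 2 then w else z x

variable {r : ℕ}

theorem upd_0 (z : Idx r → Bool) (T0 : Tr r) (i j k : Fin r) (u v w : Bool) :
    upd z T0 i j k u v w (bc T0 i j k 0) = u := by simp [upd]

theorem upd_1 (z : Idx r → Bool) (T0 : Tr r) (i j k : Fin r) (u v w : Bool) :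
    upd z T0 i j k u v w (bc T0 i j k 1) = v := by simp [upd]

theorem upd_2 (z : Idx r → Bool) (T0 : Tr r) (i j k : Fin r) (u v w : Bool) :
    upd z T0 i j k u v w (bc T0 i j k 2) = w := by simp [upd]

theorem upd_tag (z : Idx r → Bool) (T0 : Tr r) (i j k : Fin r) (u v w : Bool) (T' : Tr r)
    (l : Fin r) : upd z T0 i j k u v w (tc T' l) = z (tc T' l) := by simp [upd]

theorem upd_mem_cyl (z : Idx r → Bool) (T0 : Tr r) (i j k : Fin r) (u v w : Bool)
    (K : Set (Idx r)) (h0 : bc T0 i j k 0 ∈ K → u = z (bc T0 i j k 0))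
    (h1 : bc T0 i j k 1 ∈ K → v = z (bc T0 i j k 1))
    (h2 : bc T0 i j k 2 ∈ K → w = z (bc T0 i j k 2)) : upd z T0 i j k u v w ∈ cyl z K := by
  intro x hx
  unfold upd
  split_ifs with e0 e1 e2
  · subst e0; exact h0 hx
  · subst e1; exact h1 hx
  · subst e2; exact h2 hx
  · rfl

/-- the condition on the block that follows from a bound for all points of a cylinder -/
def BlockOK (K : Set (Idx r)) (z : Idx r → Bool) (T0 : Tr r) (i j k : Fin r) (a b c : Bool) :
    Prop :=
  ∀ u v w : Bool, (bc T0 i j k 0 ∈ K → u = z (bc T0 i j k 0)) →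
    (bc T0 i j k 1 ∈ K → v = z (bc T0 i j k 1)) →
    (bc T0 i j k 2 ∈ K → w = z (bc T0 i j k 2)) → gU a b c u v w = true

theorem BlockOK.combine {K L : Set (Idx r)} (hd : Disjoint K L) {z : Idx r → Bool} {T0 : Tr r}
    {i j k : Fin r} {a b c a' b' c' : Bool} (ha : (a && a') = false) (hb : (b && b') = false)
    (hc : (c && c') = false) (hK : BlockOK K z T0 i j k a b c)
    (hL : BlockOK L z T0 i j k a' b' c') :
    gU (a || a') (b || b') (c || c') (z (bc T0 i j k 0)) (z (bc T0 i j k 1))
      (z (bc T0 i j k 2)) = true := by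
  classical
  refine F2 a b c a' b' c' ha hb hc _ _ _ (decide (bc T0 i j k 0 ∈ K))
    (decide (bc T0 i j k 1 ∈ K)) (decide (bc T0 i j k 2 ∈ K)) ?_ ?_
  · intro u v w h0 h1 h2
    exact hK u v w (fun h => h0 (decide_eq_true h)) (fun h => h1 (decide_eq_true h))
      (fun h => h2 (decide_eq_true h))
  · intro u v w h0 h1 h2
    exact hL u v w (fun h => h0 (decide_eq_false (Set.disjoint_right.1 hd h)))
      (fun h => h1 (decide_eq_false (Set.disjoint_right.1 hd h)))
      (fun h => h2 (decide_eq_false (Set.disjoint_right.1 hd h)))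

theorem BlockOK.contra {K L : Set (Idx r)} (hd : Disjoint K L) {z : Idx r → Bool} {T0 : Tr r}
    {i j k : Fin r} {a a' : Bool} (ha : (a && a') = false) (ha' : (a || a') = true)
    (hz : ∀ c, z (bc T0 i j k c) = false)
    (hK : BlockOK K z T0 i j k a a' true) (hL : BlockOK L z T0 i j k a' a false) : False := by
  classical
  refine F3 a a' ha ha' (decide (bc T0 i j k 0 ∈ K))
    (decide (bc T0 i j k 1 ∈ K)) (decide (bc T0 i j k 2 ∈ K)) ?_ ?_
  · intro u v w h0 h1 h2
    refine hK u v w ?_ ?_ ?_
    · intro h; rw [hz]; exact h0 (decide_eq_true h)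
    · intro h; rw [hz]; exact h1 (decide_eq_true h)
    · intro h; rw [hz]; exact h2 (decide_eq_true h)
  · intro u v w h0 h1 h2
    refine hL u v w ?_ ?_ ?_
    · intro h; rw [hz]; exact h0 (decide_eq_false (Set.disjoint_right.1 hd h))
    · intro h; rw [hz]; exact h1 (decide_eq_false (Set.disjoint_right.1 hd h))
    · intro h; rw [hz]; exact h2 (decide_eq_false (Set.disjoint_right.1 hd h))

/-! ### labelled upper bound -/

/-- first part of the labelled upper bound -/
theorem ubl1 (T : Br) : ∀ (s : ℕ) (T0 : Tr r) (z : Idx r → Bool), z ∈ T.val (fac r) s →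
    Off T0 z → ∀ i j k : Fin r, Sep T0.1 0 i j k →
      gU (decide (s ≤ (i : ℕ) ∧ (i : ℕ) < s + T.size)) (decide (s ≤ (j : ℕ) ∧ (j : ℕ) < s + T.size))
        (decide (s ≤ (k : ℕ) ∧ (k : ℕ) < s + T.size))
        (z (bc T0 i j k 0)) (z (bc T0 i j k 1)) (z (bc T0 i j k 2)) = true := by
  induction T with
  | leaf =>
    intro s T0 z hz hoff i j k hs
    obtain ⟨T0', i0, hi0, htag, hb⟩ := hz
    have hT : T0' = T0 := by
      by_contra hne
      have := hoff T0' hne i0
      rw [htag] at this
      cases this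
    subst hT
    have := hb i j k hs
    have e : ∀ n : ℕ, decide (s ≤ n ∧ n < s + Br.leaf.size) = decide (n = s) := by
      intro n
      congr 1
      simp only [Br.size, eq_iff_iff]
      omega
    rw [e, e, e]
    exact this
  | node l r' ihl ihr =>
    intro s T0 z hz hoff i j k hs
    obtain ⟨K, L, hd, hK, hL⟩ := hz
    have e : ∀ n : ℕ, decide (s ≤ n ∧ n < s + (Br.node l r').size) =
        (decide (s ≤ n ∧ n < s + l.size) ||
          decide (s + l.size ≤ n ∧ n < s + l.size + r'.size)) := by
      intro n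
      rw [← Bool.decide_or]
      congr 1
      simp only [Br.size, eq_iff_iff]
      omega
    rw [e, e, e]
    have hoffu : ∀ u v w, Off T0 (upd z T0 i j k u v w) := fun u v w T' hT' l' => by
      rw [upd_tag]; exact hoff T' hT' l'
    refine BlockOK.combine hd ?_ ?_ ?_ (fun u v w h0 h1 h2 => ?_) (fun u v w h0 h1 h2 => ?_)
    · rw [← Bool.decide_and, decide_eq_false_iff_not]; omega
    · rw [← Bool.decide_and, decide_eq_false_iff_not]; omega
    · rw [← Bool.decide_and, decide_eq_false_iff_not]; omega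
    · have := ihl s T0 _ (hK (upd_mem_cyl z T0 i j k u v w K h0 h1 h2)) (hoffu u v w) i j k hs
      rwa [upd_0, upd_1, upd_2] at this
    · have := ihr (s + l.size) T0 _ (hL (upd_mem_cyl z T0 i j k u v w L h0 h1 h2)) (hoffu u v w)
        i j k hs
      rwa [upd_0, upd_1, upd_2] at this

/-- labelled upper bound -/
theorem ubl2 (T : Br) : ∀ (s : ℕ) (T0 : Tr r) (z : Idx r → Bool), z ∈ T.val (fac r) s →
    Off T0 z → ∀ T1 : Br, T1.size = T.size →
      (∀ i j k : ℕ, Sep T1 s i j k → Sep T0.1 0 i j k) →
      (∀ i j k : Fin r, Sep T0.1 0 i j k → s ≤ (i : ℕ) → (i : ℕ) < s + T.size → s ≤ (j : ℕ) →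
        (j : ℕ) < s + T.size → s ≤ (k : ℕ) → (k : ℕ) < s + T.size →
        ∀ c, z (bc T0 i j k c) = false) → T = T1 := by
  induction T with
  | leaf =>
    intro s T0 z _ _ T1 hT1 _ _
    cases T1 with
    | leaf => rfl
    | node l1 r1 =>
      have h1 := size_pos l1
      have h2 := size_pos r1
      have h3 : l1.size + r1.size = 1 := hT1
      omega
  | node l r' ihl ihr =>
    intro s T0 z hz hoff T1 hT1 hsep hzero
    obtain ⟨K, L, hd, hK, hL⟩ := hz
    have hl := size_pos l
    have hr' := size_pos r'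
    cases T1 with
    | leaf =>
      have h3 : 1 = l.size + r'.size := hT1
      omega
    | node l1 r1 =>
      have hl1 := size_pos l1
      have hr1 := size_pos r1
      have hsz : l1.size + r1.size = l.size + r'.size := hT1
      have hoffu : ∀ i j k u v w, Off T0 (upd z T0 i j k u v w) := fun i j k u v w T' hT' l' => by
        rw [upd_tag]; exact hoff T' hT' l'
      have hKb : ∀ i j k : Fin r, Sep T0.1 0 i j k →
          BlockOK K z T0 i j k (decide (s ≤ (i : ℕ) ∧ (i : ℕ) < s + l.size))
            (decide (s ≤ (j : ℕ) ∧ (j : ℕ) < s + l.size))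
            (decide (s ≤ (k : ℕ) ∧ (k : ℕ) < s + l.size)) := by
        intro i j k hs u v w h0 h1 h2
        have := ubl1 l s T0 _ (hK (upd_mem_cyl z T0 i j k u v w K h0 h1 h2)) (hoffu i j k u v w)
          i j k hs
        rwa [upd_0, upd_1, upd_2] at this
      have hLb : ∀ i j k : Fin r, Sep T0.1 0 i j k →
          BlockOK L z T0 i j k
            (decide (s + l.size ≤ (i : ℕ) ∧ (i : ℕ) < s + l.size + r'.size))
            (decide (s + l.size ≤ (j : ℕ) ∧ (j : ℕ) < s + l.size + r'.size))
            (decide (s + l.size ≤ (k : ℕ) ∧ (k : ℕ) < s + l.size + r'.size)) := by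
        intro i j k hs u v w h0 h1 h2
        have := ubl1 r' (s + l.size) T0 _ (hL (upd_mem_cyl z T0 i j k u v w L h0 h1 h2))
          (hoffu i j k u v w) i j k hs
        rwa [upd_0, upd_1, upd_2] at this
      have hT0 : T0.1.size = r := T0.2
      have hfin : ∀ i j k : ℕ, Sep T0.1 0 i j k → i < r ∧ j < r ∧ k < r := by
        intro i j k h
        have := Sep.bounds _ _ _ _ _ h
        omega
      rcases lt_trichotomy l.size l1.size with hlt | heq | hgt
      · exfalso
        have h1 : Sep (Br.node l1 r1) s s (s + l.size) (s + l1.size) := by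
          left
          refine ⟨by omega, Or.inl ?_⟩
          omega
        have h2 := hsep _ _ _ h1
        obtain ⟨hi, hj, hk⟩ := hfin _ _ _ h2
        have h3 := hzero ⟨s, hi⟩ ⟨s + l.size, hj⟩ ⟨s + l1.size, hk⟩ h2 (by simp)
          (by simp only [Br.size]; omega) (by simp) (by simp only [Br.size]; omega) (by simp)
          (by simp only [Br.size]; omega)
        have hKb' := hKb ⟨s, hi⟩ ⟨s + l.size, hj⟩ ⟨s + l1.size, hk⟩ h2
        have hLb' := hLb ⟨s, hi⟩ ⟨s + l.size, hj⟩ ⟨s + l1.size, hk⟩ h2
        rw [show decide (s ≤ ((⟨s, hi⟩ : Fin r) : ℕ) ∧ ((⟨s, hi⟩ : Fin r) : ℕ) < s + l.size) = true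
            by rw [decide_eq_true_iff]; simp only; omega,
          show decide (s ≤ ((⟨s + l.size, hj⟩ : Fin r) : ℕ) ∧
              ((⟨s + l.size, hj⟩ : Fin r) : ℕ) < s + l.size) = false
            by rw [decide_eq_false_iff_not]; simp only; omega,
          show decide (s ≤ ((⟨s + l1.size, hk⟩ : Fin r) : ℕ) ∧
              ((⟨s + l1.size, hk⟩ : Fin r) : ℕ) < s + l.size) = false
            by rw [decide_eq_false_iff_not]; simp only; omega] at hKb'
        rw [show decide (s + l.size ≤ ((⟨s, hi⟩ : Fin r) : ℕ) ∧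
              ((⟨s, hi⟩ : Fin r) : ℕ) < s + l.size + r'.size) = false
            by rw [decide_eq_false_iff_not]; simp only; omega,
          show decide (s + l.size ≤ ((⟨s + l.size, hj⟩ : Fin r) : ℕ) ∧
              ((⟨s + l.size, hj⟩ : Fin r) : ℕ) < s + l.size + r'.size) = true
            by rw [decide_eq_true_iff]; simp only; omega,
          show decide (s + l.size ≤ ((⟨s + l1.size, hk⟩ : Fin r) : ℕ) ∧
              ((⟨s + l1.size, hk⟩ : Fin r) : ℕ) < s + l.size + r'.size) = true
            by rw [decide_eq_true_iff]; simp only; omega] at hLb'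
        exact BlockOK.contra hd.symm rfl rfl h3 hLb' hKb'
      · have hl' : l = l1 := by
          refine ihl s T0 z (hK fun _ _ => rfl) hoff l1 heq.symm
            (fun i j k h => hsep i j k (Or.inr (Or.inl h))) ?_
          intro i j k h h1 h2 h3 h4 h5 h6
          exact hzero i j k h h1 (by simp only [Br.size]; omega) h3 (by simp only [Br.size]; omega)
            h5 (by simp only [Br.size]; omega)
        subst hl'
        have hr'' : r' = r1 := by
          refine ihr (s + l.size) T0 z (hL fun _ _ => rfl) hoff r1 (by omega)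
            (fun i j k h => hsep i j k (Or.inr (Or.inr h))) ?_
          intro i j k h h1 h2 h3 h4 h5 h6
          exact hzero i j k h (by omega) (by simp only [Br.size]; omega) (by omega)
            (by simp only [Br.size]; omega) (by omega) (by simp only [Br.size]; omega)
        rw [hr'']
      · exfalso
        have h1 : Sep (Br.node l1 r1) s (s + l1.size) (s + l.size) s := by
          left
          refine ⟨by omega, Or.inr ?_⟩
          omega
        have h2 := hsep _ _ _ h1
        obtain ⟨hi, hj, hk⟩ := hfin _ _ _ h2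
        have h3 := hzero ⟨s + l1.size, hi⟩ ⟨s + l.size, hj⟩ ⟨s, hk⟩ h2 (by simp)
          (by simp only [Br.size]; omega) (by simp) (by simp only [Br.size]; omega) (by simp)
          (by simp only [Br.size]; omega)
        have hKb' := hKb ⟨s + l1.size, hi⟩ ⟨s + l.size, hj⟩ ⟨s, hk⟩ h2
        have hLb' := hLb ⟨s + l1.size, hi⟩ ⟨s + l.size, hj⟩ ⟨s, hk⟩ h2
        rw [show decide (s ≤ ((⟨s + l1.size, hi⟩ : Fin r) : ℕ) ∧
              ((⟨s + l1.size, hi⟩ : Fin r) : ℕ) < s + l.size) = true
            by rw [decide_eq_true_iff]; simp only; omega,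
          show decide (s ≤ ((⟨s + l.size, hj⟩ : Fin r) : ℕ) ∧
              ((⟨s + l.size, hj⟩ : Fin r) : ℕ) < s + l.size) = false
            by rw [decide_eq_false_iff_not]; simp only; omega,
          show decide (s ≤ ((⟨s, hk⟩ : Fin r) : ℕ) ∧
              ((⟨s, hk⟩ : Fin r) : ℕ) < s + l.size) = true
            by rw [decide_eq_true_iff]; simp only; omega] at hKb'
        rw [show decide (s + l.size ≤ ((⟨s + l1.size, hi⟩ : Fin r) : ℕ) ∧
              ((⟨s + l1.size, hi⟩ : Fin r) : ℕ) < s + l.size + r'.size) = false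
            by rw [decide_eq_false_iff_not]; simp only; omega,
          show decide (s + l.size ≤ ((⟨s + l.size, hj⟩ : Fin r) : ℕ) ∧
              ((⟨s + l.size, hj⟩ : Fin r) : ℕ) < s + l.size + r'.size) = true
            by rw [decide_eq_true_iff]; simp only; omega,
          show decide (s + l.size ≤ ((⟨s, hk⟩ : Fin r) : ℕ) ∧
              ((⟨s, hk⟩ : Fin r) : ℕ) < s + l.size + r'.size) = false
            by rw [decide_eq_false_iff_not]; simp only; omega] at hLb'
        exact BlockOK.contra hd rfl rfl h3 hKb' hLb'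

end Q289.Bkr
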