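import Pool.Agent.Q289.Bkr.Main

/-!
# BKR products and bracketings: upper bound for powers of one set
-/

set_option autoImplicit false

namespace Q289.Bkr

open Finset

variable {r : ℕ}

/-- the tags of `T0` that are on -/
def tags (T0 : Tr r) (z : Idx r → Bool) : Finset (Fin r) := univ.filter (fun i => z (tc T0 i) = true)

theorem mem_tags (T0 : Tr r) (z : Idx r → Bool) (i : Fin r) :
    i ∈ tags T0 z ↔ z (tc T0 i) = true := by simp [tags]

open scoped Classical in
/-- switch off all tags outside `K` -/
noncomputable def cut (K : Set (Idx r)) (z : Idx r → Bool) : Idx r → Bool :=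
  fun x => if x ∈ K then z x else (match x.2 with | Sum.inl _ => z x | Sum.inr _ => false)

theorem cut_mem (K : Set (Idx r)) (z : Idx r → Bool) : cut K z ∈ cyl z K := by
  intro x hx
  simp [cut, hx]

theorem cut_block (K : Set (Idx r)) (z : Idx r → Bool) (T0 : Tr r) (i j k : Fin r) (c : Fin 3) :
    cut K z (bc T0 i j k c) = z (bc T0 i j k c) := by
  unfold cut
  split_ifs <;> rfl

theorem cut_tag (K : Set (Idx r)) (z : Idx r → Bool) (T0 : Tr r) (i : Fin r) :
    cut K z (tc T0 i) = true ↔ tc T0 i ∈ K ∧ z (tc T0 i) = true := by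
  unfold cut
  split_ifs with h <;> simp [h]

theorem cut_off (K : Set (Idx r)) (z : Idx r → Bool) (T0 : Tr r) (h : Off T0 z) :
    Off T0 (cut K z) := by
  intro T' hT' i
  by_contra hc
  rw [Bool.not_eq_false, cut_tag] at hc
  have := h T' hT' i
  rw [hc.2] at this
  cases this

theorem cyl_trans {z z' : Idx r → Bool} {K : Set (Idx r)} (h : z' ∈ cyl z K) :
    cyl z' K = cyl z K := by
  ext y
  constructor
  · intro hy x hx
    rw [hy x hx, h x hx]
  · intro hy x hx
    rw [hy x hx, h x hx]

theorem tags_upd (z : Idx r → Bool) (T0 : Tr r) (i j k : Fin r) (u v w : Bool) (T1 : Tr r) :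
    tags T1 (upd z T0 i j k u v w) = tags T1 z := by
  ext l
  rw [mem_tags, mem_tags, upd_tag]

/-- number of tags that are needed, and the condition on the blocks -/
theorem ub1 (T : Br) : ∀ (T0 : Tr r) (z : Idx r → Bool), z ∈ T.pow (facs r) → Off T0 z →
    T.size ≤ (tags T0 z).card ∧ ((tags T0 z).card = T.size →
      ∀ i j k : Fin r, Sep T0.1 0 i j k →
        gU (decide (i ∈ tags T0 z)) (decide (j ∈ tags T0 z)) (decide (k ∈ tags T0 z))
          (z (bc T0 i j k 0)) (z (bc T0 i j k 1)) (z (bc T0 i j k 2)) = true) := by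
  induction T with
  | leaf =>
    intro T0 z hz hoff
    obtain ⟨s, T0', i0, hi0, htag, hb⟩ := hz
    have hT : T0' = T0 := by
      by_contra hne
      have := hoff T0' hne i0
      rw [htag] at this
      cases this
    subst hT
    have hi : i0 ∈ tags T0' z := (mem_tags _ _ _).2 htag
    refine ⟨Finset.card_pos.2 ⟨i0, hi⟩, fun hcard i j k hs => ?_⟩
    obtain ⟨a, ha⟩ := Finset.card_eq_one.1 hcard
    have ha0 : i0 = a := by rw [ha] at hi; simpa using hi
    subst ha0
    have e : ∀ n : Fin r, decide (n ∈ tags T0' z) = decide ((n : ℕ) = s) := by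
      intro n
      congr 1
      rw [ha, Finset.mem_singleton, ← hi0, Fin.ext_iff]
    rw [e, e, e]
    exact hb i j k hs
  | node l r' ihl ihr =>
    intro T0 z hz hoff
    obtain ⟨K, L, hd, hK, hL⟩ := hz
    have hk1 := ihl T0 _ (hK (cut_mem K z)) (cut_off K z T0 hoff)
    have hl1 := ihr T0 _ (hL (cut_mem L z)) (cut_off L z T0 hoff)
    have hdis : Disjoint (tags T0 (cut K z)) (tags T0 (cut L z)) := by
      rw [Finset.disjoint_left]
      intro i h1 h2
      rw [mem_tags, cut_tag] at h1 h2
      exact Set.disjoint_left.1 hd h1.1 h2.1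
    have hsub : tags T0 (cut K z) ∪ tags T0 (cut L z) ⊆ tags T0 z := by
      intro i hi
      rw [Finset.mem_union, mem_tags, mem_tags, cut_tag, cut_tag] at hi
      rw [mem_tags]
      rcases hi with hi | hi
      · exact hi.2
      · exact hi.2
    have hcard := Finset.card_le_card hsub
    rw [Finset.card_union_of_disjoint hdis] at hcard
    have hk2 := hk1.1
    have hl2 := hl1.1
    refine ⟨by simp only [Br.size]; omega, fun hc i j k hs => ?_⟩
    have hc' : (tags T0 z).card = l.size + r'.size := hc
    have hck : (tags T0 (cut K z)).card = l.size := by omega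
    have hcl : (tags T0 (cut L z)).card = r'.size := by omega
    have heq : tags T0 (cut K z) ∪ tags T0 (cut L z) = tags T0 z :=
      Finset.eq_of_subset_of_card_le hsub (by rw [Finset.card_union_of_disjoint hdis]; omega)
    have e : ∀ n : Fin r, decide (n ∈ tags T0 z) =
        (decide (n ∈ tags T0 (cut K z)) || decide (n ∈ tags T0 (cut L z))) := by
      intro n
      rw [← Bool.decide_or]
      congr 1
      rw [← heq, Finset.mem_union]
    have e2 : ∀ n : Fin r, (decide (n ∈ tags T0 (cut K z)) && decide (n ∈ tags T0 (cut L z)))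
        = false := by
      intro n
      rw [← Bool.decide_and, decide_eq_false_iff_not]
      rintro ⟨h1, h2⟩
      exact Finset.disjoint_left.1 hdis h1 h2
    rw [e, e, e]
    refine BlockOK.combine hd (e2 i) (e2 j) (e2 k) (fun u v w h0 h1 h2 => ?_)
      (fun u v w h0 h1 h2 => ?_)
    · have hm : upd (cut K z) T0 i j k u v w ∈ cyl z K := by
        rw [← cyl_trans (cut_mem K z)]
        refine upd_mem_cyl _ T0 i j k u v w K ?_ ?_ ?_ <;> rw [cut_block]
        · exact h0
        · exact h1
        · exact h2
      have h3 := ihl T0 _ (hK hm) (fun T' hT' l' => by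
        rw [upd_tag]; exact cut_off K z T0 hoff T' hT' l')
      rw [tags_upd] at h3
      have := h3.2 hck i j k hs
      rwa [upd_0, upd_1, upd_2] at this
    · have hm : upd (cut L z) T0 i j k u v w ∈ cyl z L := by
        rw [← cyl_trans (cut_mem L z)]
        refine upd_mem_cyl _ T0 i j k u v w L ?_ ?_ ?_ <;> rw [cut_block]
        · exact h0
        · exact h1
        · exact h2
      have h3 := ihr T0 _ (hL hm) (fun T' hT' l' => by
        rw [upd_tag]; exact cut_off L z T0 hoff T' hT' l')
      rw [tags_upd] at h3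
      have := h3.2 hcl i j k hs
      rwa [upd_0, upd_1, upd_2] at this

/-- what one needs to know about a node -/
structure NodeData (T0 : Tr r) (z : Idx r → Bool) (l r' : Br) : Prop where
  ex : ∃ K L : Set (Idx r), Disjoint K L ∧ cut K z ∈ l.pow (facs r) ∧ cut L z ∈ r'.pow (facs r) ∧
    (tags T0 (cut K z)).card = l.size ∧ (tags T0 (cut L z)).card = r'.size ∧
    Disjoint (tags T0 (cut K z)) (tags T0 (cut L z)) ∧
    tags T0 (cut K z) ∪ tags T0 (cut L z) = tags T0 z ∧
    (∀ i j k : Fin r, Sep T0.1 0 i j k → BlockOK K z T0 i j k (decide (i ∈ tags T0 (cut K z)))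
      (decide (j ∈ tags T0 (cut K z))) (decide (k ∈ tags T0 (cut K z)))) ∧
    (∀ i j k : Fin r, Sep T0.1 0 i j k → BlockOK L z T0 i j k (decide (i ∈ tags T0 (cut L z)))
      (decide (j ∈ tags T0 (cut L z))) (decide (k ∈ tags T0 (cut L z))))

theorem nodeData (T0 : Tr r) (z : Idx r → Bool) (l r' : Br)
    (hz : z ∈ (Br.node l r').pow (facs r)) (hoff : Off T0 z)
    (hc : (tags T0 z).card = (Br.node l r').size) : NodeData T0 z l r' := by
  obtain ⟨K, L, hd, hK, hL⟩ := hz
  have hk1 := ub1 l T0 _ (hK (cut_mem K z)) (cut_off K z T0 hoff)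
  have hl1 := ub1 r' T0 _ (hL (cut_mem L z)) (cut_off L z T0 hoff)
  have hdis : Disjoint (tags T0 (cut K z)) (tags T0 (cut L z)) := by
    rw [Finset.disjoint_left]
    intro i h1 h2
    rw [mem_tags, cut_tag] at h1 h2
    exact Set.disjoint_left.1 hd h1.1 h2.1
  have hsub : tags T0 (cut K z) ∪ tags T0 (cut L z) ⊆ tags T0 z := by
    intro i hi
    rw [Finset.mem_union, mem_tags, mem_tags, cut_tag, cut_tag] at hi
    rw [mem_tags]
    rcases hi with hi | hi
    · exact hi.2
    · exact hi.2
  have hcard := Finset.card_le_card hsub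
  rw [Finset.card_union_of_disjoint hdis] at hcard
  have hk2 := hk1.1
  have hl2 := hl1.1
  have hc' : (tags T0 z).card = l.size + r'.size := hc
  have hck : (tags T0 (cut K z)).card = l.size := by omega
  have hcl : (tags T0 (cut L z)).card = r'.size := by omega
  have heq : tags T0 (cut K z) ∪ tags T0 (cut L z) = tags T0 z :=
    Finset.eq_of_subset_of_card_le hsub (by rw [Finset.card_union_of_disjoint hdis]; omega)
  refine ⟨K, L, hd, hK (cut_mem K z), hL (cut_mem L z), hck, hcl, hdis, heq, ?_, ?_⟩
  · intro i j k hs u v w h0 h1 h2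
    have hm : upd (cut K z) T0 i j k u v w ∈ cyl z K := by
      rw [← cyl_trans (cut_mem K z)]
      refine upd_mem_cyl _ T0 i j k u v w K ?_ ?_ ?_ <;> rw [cut_block]
      · exact h0
      · exact h1
      · exact h2
    have h3 := ub1 l T0 _ (hK hm) (fun T' hT' l' => by
      rw [upd_tag]; exact cut_off K z T0 hoff T' hT' l')
    rw [tags_upd] at h3
    have := h3.2 hck i j k hs
    rwa [upd_0, upd_1, upd_2] at this
  · intro i j k hs u v w h0 h1 h2
    have hm : upd (cut L z) T0 i j k u v w ∈ cyl z L := by
      rw [← cyl_trans (cut_mem L z)]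
      refine upd_mem_cyl _ T0 i j k u v w L ?_ ?_ ?_ <;> rw [cut_block]
      · exact h0
      · exact h1
      · exact h2
    have h3 := ub1 r' T0 _ (hL hm) (fun T' hT' l' => by
      rw [upd_tag]; exact cut_off L z T0 hoff T' hT' l')
    rw [tags_upd] at h3
    have := h3.2 hcl i j k hs
    rwa [upd_0, upd_1, upd_2] at this

/-- number of labels in an interval -/
theorem card_interval (s m : ℕ) (h : s + m ≤ r) (U : Finset (Fin r))
    (hU : ∀ i : Fin r, i ∈ U ↔ s ≤ (i : ℕ) ∧ (i : ℕ) < s + m) : U.card = m := by
  have : U.map Fin.valEmbedding = Finset.Ico s (s + m) := by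
    ext n
    simp only [Finset.mem_map, Fin.valEmbedding_apply, Finset.mem_Ico]
    constructor
    · rintro ⟨i, hi, rfl⟩
      exact (hU i).1 hi
    · intro hn
      exact ⟨⟨n, by omega⟩, (hU _).2 hn, rfl⟩
  rw [← Finset.card_map Fin.valEmbedding, this, Nat.card_Ico]
  omega

/-- the set of labels on one side of the root cannot be mixed -/
theorem not_mixed {T0 : Tr r} {z : Idx r → Bool} {K L : Set (Idx r)} (hd : Disjoint K L)
    {UK UL : Finset (Fin r)} (hdis : Disjoint UK UL)
    (hK : ∀ i j k : Fin r, Sep T0.1 0 i j k → BlockOK K z T0 i j k (decide (i ∈ UK))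
      (decide (j ∈ UK)) (decide (k ∈ UK)))
    (hL : ∀ i j k : Fin r, Sep T0.1 0 i j k → BlockOK L z T0 i j k (decide (i ∈ UL))
      (decide (j ∈ UL)) (decide (k ∈ UL)))
    {l1 r1 : Br} {s : ℕ} (hsep : ∀ i j k : ℕ, Sep (Br.node l1 r1) s i j k → Sep T0.1 0 i j k)
    (hint : ∀ i ∈ UK ∪ UL, s ≤ (i : ℕ) ∧ (i : ℕ) < s + (l1.size + r1.size))
    (hzero : ∀ i j k : Fin r, Sep T0.1 0 i j k → i ∈ UK ∪ UL → j ∈ UK ∪ UL → k ∈ UK ∪ UL →
      ∀ c, z (bc T0 i j k c) = false)
    {i k j : Fin r} (hi : i ∈ UK) (hk : k ∈ UK) (hj : j ∈ UL)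
    (hi1 : (i : ℕ) < s + l1.size) (hk1 : s + l1.size ≤ (k : ℕ)) : False := by
  have hiu := hint i (Finset.mem_union_left _ hi)
  have hku := hint k (Finset.mem_union_left _ hk)
  have hju := hint j (Finset.mem_union_right _ hj)
  have hiL : i ∉ UL := Finset.disjoint_left.1 hdis hi
  have hkL : k ∉ UL := Finset.disjoint_left.1 hdis hk
  have hjK : j ∉ UK := Finset.disjoint_right.1 hdis hj
  have hij : (i : ℕ) ≠ (j : ℕ) := fun h => hjK ((Fin.ext h : i = j) ▸ hi)
  have hkj : (k : ℕ) ≠ (j : ℕ) := fun h => hjK ((Fin.ext h : k = j) ▸ hk)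
  by_cases hj1 : (j : ℕ) < s + l1.size
  · have h1 : Sep (Br.node l1 r1) s i j k := Or.inl ⟨hij, Or.inl (by omega)⟩
    have h2 := hsep _ _ _ h1
    have hK' := hK i j k h2
    have hL' := hL i j k h2
    rw [decide_eq_true hi, decide_eq_false hjK, decide_eq_true hk] at hK'
    rw [decide_eq_false hiL, decide_eq_true hj, decide_eq_false hkL] at hL'
    exact BlockOK.contra hd rfl rfl (hzero i j k h2 (Finset.mem_union_left _ hi)
      (Finset.mem_union_right _ hj) (Finset.mem_union_left _ hk)) hK' hL'
  · have h1 : Sep (Br.node l1 r1) s k j i := Or.inl ⟨hkj, Or.inr (by omega)⟩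
    have h2 := hsep _ _ _ h1
    have hK' := hK k j i h2
    have hL' := hL k j i h2
    rw [decide_eq_true hi, decide_eq_false hjK, decide_eq_true hk] at hK'
    rw [decide_eq_false hiL, decide_eq_true hj, decide_eq_false hkL] at hL'
    exact BlockOK.contra hd rfl rfl (hzero k j i h2 (Finset.mem_union_left _ hk)
      (Finset.mem_union_right _ hj) (Finset.mem_union_left _ hi)) hK' hL'

/-- upper bound for powers: only bracketings equivalent to `T1` -/
theorem ub2 (T : Br) : ∀ (T0 : Tr r) (z : Idx r → Bool), z ∈ T.pow (facs r) → Off T0 z →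
    (tags T0 z).card = T.size → ∀ (T1 : Br) (s : ℕ), s + T1.size ≤ r →
    (∀ i : Fin r, i ∈ tags T0 z ↔ s ≤ (i : ℕ) ∧ (i : ℕ) < s + T1.size) →
    (∀ i j k : ℕ, Sep T1 s i j k → Sep T0.1 0 i j k) →
    (∀ i j k : Fin r, Sep T0.1 0 i j k → i ∈ tags T0 z → j ∈ tags T0 z → k ∈ tags T0 z →
      ∀ c, z (bc T0 i j k c) = false) → Swap T1 T := by
  induction T with
  | leaf =>
    intro T0 z hz hoff hcard T1 s hs hU hsep hzero
    have h1 := card_interval s T1.size hs _ hU
    rw [hcard] at h1
    cases T1 with
    | leaf => exact Swap.leaf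
    | node l1 r1 =>
      have h2 := size_pos l1
      have h3 := size_pos r1
      have h4 : 1 = l1.size + r1.size := h1
      omega
  | node l r' ihl ihr =>
    intro T0 z hz hoff hcard T1 s hs hU hsep hzero
    have h1 := card_interval s T1.size hs _ hU
    rw [hcard] at h1
    have hl := size_pos l
    have hr' := size_pos r'
    cases T1 with
    | leaf =>
      have h4 : l.size + r'.size = 1 := h1
      omega
    | node l1 r1 =>
      have hl1 := size_pos l1
      have hr1 := size_pos r1
      have hszz : l.size + r'.size = l1.size + r1.size := h1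
      have hss : s + (l1.size + r1.size) ≤ r := hs
      obtain ⟨K, L, hd, hK, hL, hck, hcl, hdis, heq, hbK, hbL⟩ := (nodeData T0 z l r' hz hoff hcard).ex
      set UK := tags T0 (cut K z) with hUK
      set UL := tags T0 (cut L z) with hUL
      have hint : ∀ i ∈ UK ∪ UL, s ≤ (i : ℕ) ∧ (i : ℕ) < s + (l1.size + r1.size) := by
        intro i hi
        rw [heq] at hi
        exact (hU i).1 hi
      have hzero' : ∀ i j k : Fin r, Sep T0.1 0 i j k → i ∈ UK ∪ UL → j ∈ UK ∪ UL →
          k ∈ UK ∪ UL → ∀ c, z (bc T0 i j k c) = false := by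
        rw [heq]; exact hzero
      have hKne : UK.Nonempty := Finset.card_pos.1 (by omega)
      have hLne : UL.Nonempty := Finset.card_pos.1 (by omega)
      have hmK : ∀ i ∈ UK, ∀ k ∈ UK, ¬ ((i : ℕ) < s + l1.size ∧ s + l1.size ≤ (k : ℕ)) := by
        rintro i hi k hk ⟨h2, h3⟩
        obtain ⟨j, hj⟩ := hLne
        exact not_mixed hd hdis hbK hbL hsep hint hzero' hi hk hj h2 h3
      have hmL : ∀ i ∈ UL, ∀ k ∈ UL, ¬ ((i : ℕ) < s + l1.size ∧ s + l1.size ≤ (k : ℕ)) := by
        rintro i hi k hk ⟨h2, h3⟩
        obtain ⟨j, hj⟩ := hKne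
        rw [Finset.union_comm] at hint hzero'
        exact not_mixed hd.symm hdis.symm hbL hbK hsep hint hzero' hi hk hj h2 h3
      have hall : ∀ n, s ≤ n → n < s + (l1.size + r1.size) → ∃ h : n < r,
          (⟨n, h⟩ : Fin r) ∈ UK ∪ UL := by
        intro n h2 h3
        refine ⟨by omega, ?_⟩
        rw [heq, hU]
        exact ⟨h2, h3⟩
      have hdisj : ∀ i, i ∈ UK → i ∉ UL := fun i h => Finset.disjoint_left.1 hdis h
      have hzK : ∀ i j k : Fin r, Sep T0.1 0 i j k → i ∈ UK → j ∈ UK → k ∈ UK →
          ∀ c, cut K z (bc T0 i j k c) = false := by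
        intro i j k h2 h3 h4 h5 c
        rw [cut_block]
        exact hzero' i j k h2 (Finset.mem_union_left _ h3) (Finset.mem_union_left _ h4)
          (Finset.mem_union_left _ h5) c
      have hzL : ∀ i j k : Fin r, Sep T0.1 0 i j k → i ∈ UL → j ∈ UL → k ∈ UL →
          ∀ c, cut L z (bc T0 i j k c) = false := by
        intro i j k h2 h3 h4 h5 c
        rw [cut_block]
        exact hzero' i j k h2 (Finset.mem_union_right _ h3) (Finset.mem_union_right _ h4)
          (Finset.mem_union_right _ h5) c
      obtain ⟨h0, hm0⟩ := hall s le_rfl (by omega)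
      obtain ⟨hE, hmE⟩ := hall (s + l1.size) (by omega) (by omega)
      rw [Finset.mem_union] at hm0 hmE
      rcases hm0 with hm0 | hm0
      · -- `UK` is the left part
        have hK1 : ∀ i ∈ UK, (i : ℕ) < s + l1.size := by
          intro i hi
          by_contra hc
          exact hmK _ hm0 i hi ⟨by simp only; omega, by omega⟩
        have hmE' : (⟨s + l1.size, hE⟩ : Fin r) ∈ UL := by
          rcases hmE with h | h
          · have := hK1 _ h
            simp at this
          · exact h
        have hL1 : ∀ i ∈ UL, s + l1.size ≤ (i : ℕ) := by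
          intro i hi
          by_contra hc
          exact hmL i hi _ hmE' ⟨by omega, by simp⟩
        have hUKiff : ∀ i : Fin r, i ∈ UK ↔ s ≤ (i : ℕ) ∧ (i : ℕ) < s + l1.size := by
          intro i
          constructor
          · intro hi
            exact ⟨(hint i (Finset.mem_union_left _ hi)).1, hK1 i hi⟩
          · rintro ⟨h2, h3⟩
            obtain ⟨h4, h5⟩ := hall i h2 (by omega)
            rcases Finset.mem_union.1 h5 with h5 | h5
            · exact h5
            · have := hL1 _ h5
              simp only at this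
              omega
        have hULiff : ∀ i : Fin r, i ∈ UL ↔ s + l1.size ≤ (i : ℕ) ∧
            (i : ℕ) < s + l1.size + r1.size := by
          intro i
          constructor
          · intro hi
            exact ⟨hL1 i hi, by have := (hint i (Finset.mem_union_right _ hi)).2; omega⟩
          · rintro ⟨h2, h3⟩
            obtain ⟨h4, h5⟩ := hall i (by omega) (by omega)
            rcases Finset.mem_union.1 h5 with h5 | h5
            · have := hK1 _ h5
              simp only at this
              omega
            · exact h5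
        exact Swap.keep _ _ _ _
          (ihl T0 _ hK (cut_off K z T0 hoff) hck l1 s (by omega) hUKiff
            (fun i j k h => hsep i j k (Or.inr (Or.inl h))) hzK)
          (ihr T0 _ hL (cut_off L z T0 hoff) hcl r1 (s + l1.size) (by omega) hULiff
            (fun i j k h => hsep i j k (Or.inr (Or.inr h))) hzL)
      · -- `UL` is the left part
        have hL1 : ∀ i ∈ UL, (i : ℕ) < s + l1.size := by
          intro i hi
          by_contra hc
          exact hmL _ hm0 i hi ⟨by simp only; omega, by omega⟩
        have hmE' : (⟨s + l1.size, hE⟩ : Fin r) ∈ UK := by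
          rcases hmE with h | h
          · exact h
          · have := hL1 _ h
            simp at this
        have hK1 : ∀ i ∈ UK, s + l1.size ≤ (i : ℕ) := by
          intro i hi
          by_contra hc
          exact hmK i hi _ hmE' ⟨by omega, by simp⟩
        have hULiff : ∀ i : Fin r, i ∈ UL ↔ s ≤ (i : ℕ) ∧ (i : ℕ) < s + l1.size := by
          intro i
          constructor
          · intro hi
            exact ⟨(hint i (Finset.mem_union_right _ hi)).1, hL1 i hi⟩
          · rintro ⟨h2, h3⟩
            obtain ⟨h4, h5⟩ := hall i h2 (by omega)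
            rcases Finset.mem_union.1 h5 with h5 | h5
            · have := hK1 _ h5
              simp only at this
              omega
            · exact h5
        have hUKiff : ∀ i : Fin r, i ∈ UK ↔ s + l1.size ≤ (i : ℕ) ∧
            (i : ℕ) < s + l1.size + r1.size := by
          intro i
          constructor
          · intro hi
            exact ⟨hK1 i hi, by have := (hint i (Finset.mem_union_left _ hi)).2; omega⟩
          · rintro ⟨h2, h3⟩
            obtain ⟨h4, h5⟩ := hall i (by omega) (by omega)
            rcases Finset.mem_union.1 h5 with h5 | h5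
            · exact h5
            · have := hL1 _ h5
              simp only at this
              omega
        exact Swap.swap _ _ _ _
          (ihr T0 _ hL (cut_off L z T0 hoff) hcl l1 s (by omega) hULiff
            (fun i j k h => hsep i j k (Or.inr (Or.inl h))) hzL)
          (ihl T0 _ hK (cut_off K z T0 hoff) hck r1 (s + l1.size) (by omega) hUKiff
            (fun i j k h => hsep i j k (Or.inr (Or.inr h))) hzK)

end Q289.Bkr
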